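import Pool.Agent.N461.TT.Thm

/-!
# Tight trees with three and four edges in 3-graphs without `K_4^3`

A tight tree is built from an edge by adding edges which consist of two vertices of an earlier edge
and a new vertex; it is a star if two vertices lie in all its edges. For a tight tree `F` with `k = 3`
or `k = 4` edges which is not a star (the tight path with three edges; the tight path with four
edges, the cones over the path with four edges and over the tree with degree sequence 3, 2, 1, 1, 1,
and an edge with further edges at its three pairs), Turán's construction asymptotically maximises the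
number of homomorphic images of `F` among all `K_4^3`-free 3-graphs, with linear stability: a
`K_4^3`-free 3-graph whose number of homomorphisms from `F` is smaller than the bound by
`ε n^(k+2)` becomes a Turán construction after a change of at most `4000000 ε n³` triples.
For the star with four edges the statement fails.

Outline: for each of the five trees two sum of squares certificates for six-vertex structures, found
by a semidefinite programming solver and made exact, the second one with a penalty for the
structures of the pattern `(2,2,2)`; the leaf inequalities are checked by the kernel. The passage to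
the distance from Turán's construction uses the argument of the starting files for stability.
-/

set_option autoImplicit false
open Finset Filter Topology

namespace Pool.Agent.Results.MP_a4d830_co.TightTrees

open Pool.Agent.N461.TT

/-- For every tight tree `F` with `k ∈ {3, 4}` edges (so with `k + 2` vertices) which is not a star
and every `K_4^3`-free 3-graph `H` on `n` vertices there is a Turán construction `turan g` with
`hom(F, H) + n^(k-1) |H ∆ turan g| / 4000000 ≤ col(F) (n/3)^(k+2)`; the maximum of `hom(F, H)` is
`(col(F) / 3^(k+2) + o(1)) n^(k+2)`. For the star with four edges the maximum is larger. -/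
theorem result :
    (∀ k : ℕ, k = 3 ∨ k = 4 → ∀ F : Finset (Finset (Fin (k + 2))),
      TightTree F → F.card = k → ¬ IsStar F →
      (∀ (n : ℕ) (H : Finset (Finset (Fin n))), (∀ e ∈ H, e.card = 3) → K43Free H →
        ∃ g : Fin n → Fin 3,
          (homs F H : ℝ) + (n : ℝ) ^ (k - 1) * ((symmDiff H (turan g)).card : ℝ) / 4000000 ≤
            (cols F : ℝ) / 3 ^ (k + 2) * (n : ℝ) ^ (k + 2)) ∧
      Tendsto (fun n : ℕ => (maxHoms F n : ℝ) / (n : ℝ) ^ (k + 2)) atTop
        (𝓝 ((cols F : ℝ) / 3 ^ (k + 2)))) ∧
    (∀ F : Finset (Finset (Fin 6)), TightTree F → F.card = 4 → IsStar F →
      ∃ δ : ℝ, 0 < δ ∧ ∀ᶠ n : ℕ in atTop,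
        ((cols F : ℝ) / 3 ^ 6 + δ) * (n : ℝ) ^ 6 ≤ (maxHoms F n : ℝ)) :=
  ⟨fun k hk F hT hc hs => ⟨fun n H h3 hK => main_all k hk F hT hc hs n H h3 hK,
    lim_all k hk F hT hc hs⟩, star_all⟩

end Pool.Agent.Results.MP_a4d830_co.TightTrees
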